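import Pool.Agent.W979.TE.Defs

/-! TE-BUMP: bump polynomials. -/

set_option autoImplicit false

namespace Pool.Agent.W932.TE

open Pool.Agent.W979.TE

open Classical in
theorem sub_eval_mem {F ι : Type} [Field F] (x : ι → F) (p : MvPolynomial ι F) :
    p - MvPolynomial.C (MvPolynomial.eval x p) ∈ pt x := by
  induction p using MvPolynomial.induction_on with
  | C a =>
    rw [MvPolynomial.eval_C, sub_self]
    exact Ideal.zero_mem _
  | add p q hp hq =>
    rw [map_add, map_add]
    have h : p + q - (MvPolynomial.C (MvPolynomial.eval x p) +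
        MvPolynomial.C (MvPolynomial.eval x q)) =
        (p - MvPolynomial.C (MvPolynomial.eval x p)) +
          (q - MvPolynomial.C (MvPolynomial.eval x q)) := by ring
    rw [h]
    exact Ideal.add_mem _ hp hq
  | mul_X p i hp =>
    rw [map_mul, MvPolynomial.eval_X, map_mul]
    have h : p * MvPolynomial.X i - MvPolynomial.C (MvPolynomial.eval x p) *
        MvPolynomial.C (x i) =
        MvPolynomial.X i * (p - MvPolynomial.C (MvPolynomial.eval x p)) +
          MvPolynomial.C (MvPolynomial.eval x p) * (MvPolynomial.X i - MvPolynomial.C (x i)) := by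
      ring
    rw [h]
    exact Ideal.add_mem _ (Ideal.mul_mem_left _ _ hp)
      (Ideal.mul_mem_left _ _ (Ideal.subset_span ⟨i, rfl⟩))

theorem mem_pt_of_eval {F ι : Type} [Field F] (x : ι → F) (p : MvPolynomial ι F)
    (h : MvPolynomial.eval x p = 0) : p ∈ pt x := by
  have h1 := sub_eval_mem x p
  rw [h, map_zero, sub_zero] at h1
  exact h1

theorem bump : S_BUMP := by
  intro F κ _ _ K k Z z hz hk
  classical
  -- a separating coordinate
  have hex : ∀ z' : κ → F, ∃ i : Option κ, z' ≠ z → ∃ j, i = some j ∧ z' j ≠ z j := by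
    intro z'
    by_cases h : z' = z
    · exact ⟨none, fun h' => absurd h h'⟩
    · obtain ⟨j, hj⟩ := Function.ne_iff.mp h
      exact ⟨some j, fun _ => ⟨j, rfl, hj⟩⟩
  choose io hio using hex
  let fa : (κ → F) → MvPolynomial κ F := fun z' =>
    match io z' with
    | none => 1
    | some j => MvPolynomial.X j - MvPolynomial.C (z' j)
  have hfa : ∀ z', z' ≠ z → ∃ j, fa z' = MvPolynomial.X j - MvPolynomial.C (z' j) ∧
      z' j ≠ z j := by
    intro z' h
    obtain ⟨j, hj1, hj2⟩ := hio z' h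
    refine ⟨j, ?_, hj2⟩
    show (match io z' with
      | none => 1
      | some j => MvPolynomial.X j - MvPolynomial.C (z' j)) = _
    rw [hj1]
  let Q : MvPolynomial κ F := ∏ z' ∈ Z.erase z, fa z' ^ (K + 1)
  have hcard : (Z.erase z).card + 1 = Z.card := Finset.card_erase_add_one hz
  have hc : MvPolynomial.eval z Q ≠ 0 := by
    show MvPolynomial.eval z (∏ z' ∈ Z.erase z, fa z' ^ (K + 1)) ≠ 0
    rw [map_prod]
    refine Finset.prod_ne_zero_iff.mpr fun z' hz' => ?_
    rw [map_pow]
    refine pow_ne_zero _ ?_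
    obtain ⟨j, hj1, hj2⟩ := hfa z' (Finset.ne_of_mem_erase hz')
    rw [hj1, map_sub, MvPolynomial.eval_X, MvPolynomial.eval_C]
    exact sub_ne_zero.mpr (Ne.symm hj2)
  set c := MvPolynomial.eval z Q with hcdef
  have hdegQ : ∀ i, MvPolynomial.degreeOf i Q ≤ (k - 1) * (K + 1) := by
    intro i
    refine (MvPolynomial.degreeOf_prod_le i _ _).trans ?_
    have h1 : ∀ z' ∈ Z.erase z, MvPolynomial.degreeOf i (fa z' ^ (K + 1)) ≤ K + 1 := by
      intro z' hz'
      obtain ⟨j, hj1, -⟩ := hfa z' (Finset.ne_of_mem_erase hz')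
      refine (MvPolynomial.degreeOf_pow_le i _ _).trans ?_
      have h2 : MvPolynomial.degreeOf i (fa z') ≤ 1 := by
        rw [hj1]
        refine (MvPolynomial.degreeOf_sub_le i _ _).trans ?_
        rw [MvPolynomial.degreeOf_C, MvPolynomial.degreeOf_X]
        split_ifs <;> simp
      calc (K + 1) * MvPolynomial.degreeOf i (fa z') ≤ (K + 1) * 1 := Nat.mul_le_mul_left _ h2
        _ = K + 1 := mul_one _
    refine (Finset.sum_le_sum h1).trans ?_
    rw [Finset.sum_const, smul_eq_mul]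
    exact Nat.mul_le_mul_right _ (by omega)
  let R : MvPolynomial κ F := 1 - MvPolynomial.C c⁻¹ * Q
  have hR0 : R ∈ pt z := by
    apply mem_pt_of_eval
    show MvPolynomial.eval z (1 - MvPolynomial.C c⁻¹ * Q) = 0
    rw [map_sub, map_one, map_mul, MvPolynomial.eval_C, ← hcdef, inv_mul_cancel₀ hc, sub_self]
  have hdegR : ∀ i, MvPolynomial.degreeOf i R ≤ (k - 1) * (K + 1) := by
    intro i
    refine (MvPolynomial.degreeOf_sub_le i _ _).trans ?_
    rw [MvPolynomial.degreeOf_one]
    refine max_le (Nat.zero_le _) ?_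
    exact (MvPolynomial.degreeOf_C_mul_le _ _ _).trans (hdegQ i)
  refine ⟨1 - R ^ (K + 1), ?_, ?_, ?_⟩
  · intro i
    refine (MvPolynomial.degreeOf_sub_le i _ _).trans ?_
    rw [MvPolynomial.degreeOf_one]
    refine max_le (Nat.zero_le _) ?_
    refine (MvPolynomial.degreeOf_pow_le i _ _).trans ?_
    calc (K + 1) * MvPolynomial.degreeOf i R ≤ (K + 1) * ((k - 1) * (K + 1)) :=
          Nat.mul_le_mul_left _ (hdegR i)
      _ = (k - 1) * (K + 1) ^ 2 := by ring
      _ ≤ k * (K + 1) ^ 2 := Nat.mul_le_mul_right _ (by omega)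
  · have h1 : (1 - R ^ (K + 1)) - 1 = - R ^ (K + 1) := by ring
    rw [h1]
    exact Ideal.neg_mem_iff _ |>.mpr (Ideal.pow_mem_pow hR0 _)
  · intro z' hz' hne
    have h1 : MvPolynomial.C c⁻¹ * Q ∣ 1 - R ^ (K + 1) := by
      have h2 := sub_dvd_pow_sub_pow (1 : MvPolynomial κ F) R (K + 1)
      rw [one_pow] at h2
      have h3 : 1 - R = MvPolynomial.C c⁻¹ * Q := by
        show 1 - (1 - MvPolynomial.C c⁻¹ * Q) = _
        ring
      rw [h3] at h2
      exact h2
    obtain ⟨T, hT⟩ := h1
    rw [hT]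
    refine Ideal.mul_mem_right _ _ (Ideal.mul_mem_left _ _ ?_)
    have hz'' : z' ∈ Z.erase z := Finset.mem_erase.mpr ⟨hne, hz'⟩
    have h4 : fa z' ^ (K + 1) ∣ Q := Finset.dvd_prod_of_mem (fun z' => fa z' ^ (K + 1)) hz''
    obtain ⟨T', hT'⟩ := h4
    rw [hT']
    refine Ideal.mul_mem_right _ _ (Ideal.pow_mem_pow ?_ _)
    obtain ⟨j, hj1, -⟩ := hfa z' hne
    rw [hj1]
    exact Ideal.subset_span ⟨j, rfl⟩

end Pool.Agent.W932.TE
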