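import Pool.Agent.W979.TE.Defs

/-! TE-RES: values of monic polynomials divisible by a high power of `X`. -/

set_option autoImplicit false

namespace Pool.Agent.W932.TE

open Pool.Agent.W979.TE Polynomial

theorem pow_dvd_aux {F : Type} [Field F] (L : ℕ) : ∀ (M : ℕ) (a b : Polynomial F),
    ¬ (X : Polynomial F) ^ (L + 1) ∣ a → (X : Polynomial F) ^ (M + L) ∣ a * b →
      (X : Polynomial F) ^ M ∣ b := by
  induction L with
  | zero =>
    intro M a b ha hab
    rw [zero_add, pow_one] at ha
    exact Polynomial.prime_X.pow_dvd_of_dvd_mul_left M ha hab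
  | succ L ih =>
    intro M a b ha hab
    by_cases h : (X : Polynomial F) ∣ a
    · obtain ⟨a', rfl⟩ := h
      refine ih M a' b ?_ ?_
      · intro h'
        apply ha
        rw [pow_succ' X (L + 1)]
        exact mul_dvd_mul_left X h'
      · have h1 : (X : Polynomial F) * X ^ (M + L) ∣ X * (a' * b) := by
          rw [← pow_succ', ← mul_assoc]
          exact hab
        exact (mul_dvd_mul_iff_left X_ne_zero).mp h1
    · have h1 := Polynomial.prime_X.pow_dvd_of_dvd_mul_left (M + (L + 1)) h hab
      exact (pow_dvd_pow X (by omega)).trans h1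

theorem classes {F : Type} [Field F] (L : ℕ) : ∀ (κ : ℕ) (P : Polynomial (Polynomial F)),
    P.Monic → P.natDegree = κ → ∀ M : ℕ, κ * L < M →
      ∃ T : Finset (Polynomial F), T.card ≤ κ ∧ ∀ p : Polynomial F,
        (X : Polynomial F) ^ M ∣ P.eval p → ∃ t ∈ T, (X : Polynomial F) ^ (L + 1) ∣ p - t := by
  classical
  intro κ
  induction κ with
  | zero =>
    intro P hP hdeg M hM
    refine ⟨∅, le_rfl, fun p hp => ?_⟩
    exfalso
    have h1 : P = 1 := (hP.natDegree_eq_zero).mp hdeg
    rw [h1, Polynomial.eval_one] at hp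
    have h2 : (X : Polynomial F) ∣ 1 := (dvd_pow_self X (by omega)).trans hp
    exact Polynomial.prime_X.not_isUnit (isUnit_of_dvd_one h2)
  | succ κ ih =>
    intro P hP hdeg M hM
    by_cases hex : ∃ p0 : Polynomial F, (X : Polynomial F) ^ M ∣ P.eval p0
    · obtain ⟨p0, hp0⟩ := hex
      set Q := P /ₘ (X - C p0) with hQ
      have hmon : (X - C p0 : Polynomial (Polynomial F)).Monic := monic_X_sub_C p0
      have hdiv : P %ₘ (X - C p0) + (X - C p0) * Q = P := modByMonic_add_div P _
      have hmod : P %ₘ (X - C p0) = C (P.eval p0) := modByMonic_X_sub_C_eq_C_eval P p0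
      have hQdeg : Q.natDegree = κ := by
        rw [hQ, natDegree_divByMonic P hmon, hdeg, natDegree_X_sub_C]
        omega
      have hQmon : Q.Monic := by
        have h1 : (X - C p0 : Polynomial (Polynomial F)).degree ≤ P.degree := by
          rw [degree_X_sub_C, Polynomial.degree_eq_natDegree hP.ne_zero, hdeg]
          exact_mod_cast (by omega : 1 ≤ κ + 1)
        have h2 := Polynomial.leadingCoeff_divByMonic_of_monic hmon h1
        unfold Polynomial.Monic
        rw [hQ, h2]
        exact hP
      have hMM : (κ + 1) * L = κ * L + L := by ring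
      obtain ⟨T, hT, hTp⟩ := ih Q hQmon hQdeg (M - L) (by omega)
      refine ⟨insert p0 T, (Finset.card_insert_le _ _).trans (by omega), fun p hp => ?_⟩
      by_cases h : (X : Polynomial F) ^ (L + 1) ∣ p - p0
      · exact ⟨p0, Finset.mem_insert_self _ _, h⟩
      · have h1 : P.eval p = P.eval p0 + (p - p0) * Q.eval p := by
          conv_lhs => rw [← hdiv]
          rw [eval_add, hmod, eval_C, eval_mul, eval_sub, eval_X, eval_C]
        have h2 : (X : Polynomial F) ^ M ∣ (p - p0) * Q.eval p := by
          have h3 : (p - p0) * Q.eval p = P.eval p - P.eval p0 := by rw [h1]; ring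
          rw [h3]
          exact dvd_sub hp hp0
        have h3 : (X : Polynomial F) ^ (M - L) ∣ Q.eval p := by
          refine pow_dvd_aux L (M - L) _ _ h ?_
          have h4 : M - L + L = M := by omega
          rw [h4]
          exact h2
        obtain ⟨t, ht, ht'⟩ := hTp p h3
        exact ⟨t, Finset.mem_insert_of_mem ht, ht'⟩
    · push Not at hex
      exact ⟨∅, by simp, fun p hp => absurd hp (hex p)⟩

theorem coeff_pert {F : Type} [Field F] {N : ℕ} (lam : Fin N → F) (b : Fin N) :
    (∑ a, C (lam a) * X ^ (a.1 + 1) : Polynomial F).coeff (b.1 + 1) = lam b := by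
  rw [Polynomial.finsetSum_coeff, Finset.sum_eq_single b]
  · rw [coeff_C_mul, coeff_X_pow, if_pos rfl, mul_one]
  · intro a _ hab
    rw [coeff_C_mul, coeff_X_pow, if_neg, mul_zero]
    intro h
    apply hab
    exact Fin.ext (by omega)
  · intro h; exact absurd (Finset.mem_univ b) h

open Classical in
theorem count_class {F : Type} [Field F] [Fintype F] (N L : ℕ) (hLN : L ≤ N) (t : Polynomial F) :
    (Finset.univ.filter (fun lam : Fin N → F =>
      (X : Polynomial F) ^ (L + 1) ∣ (∑ a, C (lam a) * X ^ (a.1 + 1)) - t)).card *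
      Fintype.card F ^ L ≤ Fintype.card F ^ N := by
  set A := Finset.univ.filter (fun lam : Fin N → F =>
      (X : Polynomial F) ^ (L + 1) ∣ (∑ a, C (lam a) * X ^ (a.1 + 1)) - t) with hA
  have hdet : ∀ lam ∈ A, ∀ b : Fin N, b.1 < L → lam b = t.coeff (b.1 + 1) := by
    intro lam hlam b hb
    have h1 := (Finset.mem_filter.mp hlam).2
    have h2 := (Polynomial.X_pow_dvd_iff.mp h1) (b.1 + 1) (by omega)
    rw [coeff_sub, coeff_pert] at h2
    exact sub_eq_zero.mp h2
  have h1 : Fintype.card F ^ L = (Finset.univ : Finset (Fin L → F)).card := by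
    rw [Finset.card_univ, Fintype.card_fun, Fintype.card_fin]
  have h2 : Fintype.card F ^ N = (Finset.univ : Finset (Fin N → F)).card := by
    rw [Finset.card_univ, Fintype.card_fun, Fintype.card_fin]
  rw [h1, h2, ← Finset.card_product]
  refine Finset.card_le_card_of_injOn
    (fun pq : (Fin N → F) × (Fin L → F) => fun a : Fin N =>
      if h : a.1 < L then pq.2 ⟨a.1, h⟩ else pq.1 a) (fun _ _ => Finset.mem_coe.mpr (Finset.mem_univ _)) ?_
  rintro ⟨lam, μ⟩ h ⟨lam', μ'⟩ h' heq
  rw [Finset.mem_coe, Finset.mem_product] at h h'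
  have e : ∀ a : Fin N, (if h : a.1 < L then μ ⟨a.1, h⟩ else lam a) =
      (if h : a.1 < L then μ' ⟨a.1, h⟩ else lam' a) := fun a => congrFun heq a
  refine Prod.ext (funext fun a => ?_) (funext fun c => ?_)
  · show lam a = lam' a
    by_cases ha : a.1 < L
    · rw [hdet lam h.1 a ha, hdet lam' h'.1 a ha]
    · have := e a
      rw [dif_neg ha, dif_neg ha] at this
      exact this
  · show μ c = μ' c
    have := e ⟨c.1, lt_of_lt_of_le c.2 hLN⟩
    rw [dif_pos c.2, dif_pos c.2] at this
    exact this

theorem res : S_RES := by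
  intro F _ _ κ L P hP hdeg
  classical
  obtain ⟨T, hT, hTp⟩ := classes L κ P hP hdeg (κ * L + 1) (Nat.lt_succ_self _)
  set A := Finset.univ.filter (fun lam : Fin (κ * L) → F =>
      (X : Polynomial F) ^ (κ * L + 1) ∣
        P.eval (∑ a, C (lam a) * X ^ (a.1 + 1))) with hA
  let At : Polynomial F → Finset (Fin (κ * L) → F) := fun t =>
    Finset.univ.filter (fun lam : Fin (κ * L) → F =>
      (X : Polynomial F) ^ (L + 1) ∣ (∑ a, C (lam a) * X ^ (a.1 + 1)) - t)
  have hsub : A ⊆ T.biUnion At := by
    intro lam hlam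
    obtain ⟨t, ht, ht'⟩ := hTp _ (Finset.mem_filter.mp hlam).2
    exact Finset.mem_biUnion.mpr ⟨t, ht, Finset.mem_filter.mpr ⟨Finset.mem_univ _, ht'⟩⟩
  have h1 : A.card ≤ ∑ t ∈ T, (At t).card := (Finset.card_le_card hsub).trans Finset.card_biUnion_le
  have h2 : ∀ t ∈ T, (At t).card * Fintype.card F ^ L ≤ Fintype.card F ^ (κ * L) := by
    intro t ht
    have hκ : 1 ≤ κ := by
      have : 0 < T.card := Finset.card_pos.mpr ⟨t, ht⟩
      omega
    have := count_class (κ * L) L (Nat.le_mul_of_pos_left L hκ) t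
    convert this
  have h3 : (∑ t ∈ T, (At t).card) * Fintype.card F ^ L ≤ κ * Fintype.card F ^ (κ * L) := by
    rw [Finset.sum_mul]
    refine (Finset.sum_le_sum h2).trans ?_
    rw [Finset.sum_const, smul_eq_mul]
    exact Nat.mul_le_mul_right _ hT
  have h4 := (Nat.mul_le_mul_right (Fintype.card F ^ L) h1).trans h3
  convert h4

end Pool.Agent.W932.TE
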